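import Pool.Agent.Helper302.CT.Main

namespace Pool.Agent.Results.MP_98f34a_gt.NoFixedPointProperty

open Pool.Agent.Helper302.CT

/-- There is a tree-like continuum `X` whose hyperspace `C(X)` of subcontinua, with the Hausdorff
metric, does not have the fixed point property. -/
theorem result : ∃ (X : Type) (_ : MetricSpace X), CompactSpace X ∧ ConnectedSpace X ∧
    IsTreeLike X ∧ ¬ FixedPointProperty (Hyper X) :=
  main_theorem

end Pool.Agent.Results.MP_98f34a_gt.NoFixedPointProperty
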